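import Mathlib
import Pool.Agent.KS6_5.SP.Letters

/-!
# Tate classes on products of K3 surfaces of any height with Galois real fields, and arbitrary varieties

Let `X 1, …, X r` and `Z` be smooth projective varieties over a finite field of characteristic `p`. We
consider the Tate classes (over finite extensions of the field) on the products of any number of
copies of the `X i` and of `Z`. By the Künneth formula and Poincaré duality they are the multilinear
maps `f` from products of spaces `V k` to `M` which commute with a power of the Frobenius
(`IsTateMap`); here `V k` is a cohomology group of some `X i`, `i = c k`, or its transcendental part, and
`M` is a cohomology group of `Z` (with a Tate twist, coefficients in an algebraically closed field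
`Ω`).

* The Frobenius `F k` on `V k` is normalised to weight zero and semisimple, its eigenvalues are roots
  of unity or `e`-th roots of conjugates of a number `α i` in a CM field `K i`, up to roots of unity
  (`HasEigenvalues`). For K3 surfaces and varieties of K3 type (cubic fourfolds, hyperkähler
  varieties, ...) `e = 1`; for the first cohomology of curves and abelian varieties with
  Frobenius number `π` one takes `e = 2` and `α = π / (conjugate of π)`.
* `α i` has complex absolute values one, `p ^ a α i` is integral for some `a`, and all powers of `α i`
  generate `K i` (`IsWeilZero`).
* `F₀` is a number field which contains all conjugates of the maximal totally real subfields of the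
  `K i` (`ContainsReal`), and every conjugate of every `α i` is a unit at all places above `p` except
  for those above **one** place of `F₀` (`AtOnePlace`). This place may depend on the conjugate.
* No power of a conjugate of `α i` is equal to a power of a conjugate of `α j`, for `i ≠ j`
  (`Incommensurable`).
* `Z` is **arbitrary**: the Frobenius `G` on `M` need not be semisimple, and nothing is assumed about the
  Tate conjecture for `Z`. But for every eigenvalue `β` of `G` and every `i` we suppose
  (`IsForeignOrSmall`) that the conjugates of `β` and `F₀` generate fields which contain no
  conjugate of `K i` (this may be checked for any power of `β`), or that the slopes of the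
  conjugates of `β` deviate from some number by less than all the nonzero slopes of `α i`, divided
  by `e i`.

Then **every** Tate class is a linear combination of products of Tate classes on single varieties
`X i`, on products of two varieties of the same type `X i × X i`, and of a Tate class on `Z`
(`IsProduct`).

The second part of the theorem is the criterion for the main example: if the maximal totally real
subfield of `K` is a Galois extension of the rational numbers with image `F₀` (`ContainsReal` and
`InReal`), then a number `α` in `K` which is a unit except above one place of the real subfield
satisfies `AtOnePlace`. This is true for **all K3 surfaces `X` of finite height `h`**: there is only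
one place `w` of `K` above `p` at which `α` has a positive slope, its degree over the field of `p`-adic
numbers is the height divided by the multiplicity of the eigenvalues, and the slope is `1 / h`. So
for all K3 surfaces of any finite height over finite fields of any characteristic for which the
real subfield of `K` is Galois over the rational numbers (for a number `α` all of whose powers
generate `K`; one can always replace `K` by the field generated by a power) the Tate conjecture
holds for all powers of `X`, in all codimensions, since it is known for `X` (Nygaard, Ogus, Maulik,
Charles, Madapusi Pera, Kim) and for `X × X` (Ito, Ito, Koshikawa). If it holds for `Z` it also holds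
for `X ^ n × Z`, for all `n` and all `Z` whose slopes deviate from a number by less than `1 / h` (in
every degree of the cohomology), for instance a product of K3 surfaces of heights `h_j` with
`∑ 1 / h_j < 1 / h` and of supersingular ones; or whose eigenvalues satisfy the condition on the
fields, for instance any product of K3 surfaces with other fields `K'` such that the composite of
`F₀` and the conjugates of the `K'` does not contain a conjugate of `K`. For several surfaces with
the same real field `F₀` the Tate conjecture holds for all products of their powers, if no two of
the numbers `α i` have powers which are conjugate.

If the real field is not Galois over the rational numbers, the condition for K3 surfaces and the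
Galois closure `F₀` says that the decomposition group above the place contains the
stabiliser of an embedding of the real field. In general the Tate conjecture for the powers of
K3 surfaces is open; for example, if `h` is even and `K` contains an imaginary quadratic field in
which `p` does not split, the norm of `α` to this field is a root of unity, and there are exotic
Tate classes. (This does not occur here: if the real field is Galois and `K` contains an imaginary
quadratic field, then `K` is Galois and `α` generates `K` only if `p` splits completely.)

Relation to the starting files. For K3 surfaces the known cases, with `[K : ℚ] = 2 d` and `m` the degree
of the place, are (`IsFreeNumber`): `m` odd, `d ≤ 11` and `(d, m)` not one of `(6, 3)`, `(9, 3)`,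
`(10, 3)`, `(10, 5)`; `m ≤ 2` or `d` prime, with a condition on norms; all sign changes in the Galois
group. Here there is no condition on `m`, in particular `m` may be even and greater than two, and
no condition on `d` and on norms. The independence of several varieties is for arbitrary
numbers with the same real field (`ProductsOfKThrees` is for height one or rigid numbers with
totally real intersections of the fields). The theorem `OnePlaceOfRealField` (this folder) is on
representations of arbitrary groups and abelian varieties, here we treat arbitrary cohomology groups
over finite fields, and factors `Z` on whose cohomology the Frobenius is not known to be semisimple.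
-/

set_option autoImplicit false

namespace Pool.Agent.Results.MP_2a05c8_ag.KThreesGaloisRealField

open NumberField Pool.Agent.TH121.KT Pool.Agent.KS6_5.SP

/-- **Tate classes on products of varieties whose numbers are supported at one place of the real
field, and of arbitrary varieties with smaller slopes or foreign eigenvalues, are generated by those
on single varieties, squares and the additional factor. The condition on the place is satisfied by
all numbers which are supported at one place of the real field, if it is Galois over the
rational numbers.** -/
theorem result (p : ℕ) [Fact p.Prime]
    (F₀ : IntermediateField ℚ (AlgebraicClosure ℚ)) [FiniteDimensional ℚ F₀] :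
    (∀ {r : ℕ} (K : Fin r → Type) [∀ i, Field (K i)] [∀ i, NumberField (K i)]
      [∀ i, IsCMField (K i)] (α : ∀ i, K i) (e : Fin r → ℕ), (∀ i, 0 < e i) →
      (∀ i, IsWeilZero p (α i)) → (∀ i, ContainsReal F₀ (K i)) → (∀ i, AtOnePlace p F₀ (α i)) →
      Incommensurable α →
      -- the cohomology of the factors
      ∀ {Ω : Type} [Field Ω] [IsAlgClosed Ω] [CharZero Ω] {κ : Type} [Fintype κ] [DecidableEq κ]
      (c : κ → Fin r) (V : κ → Type) [∀ k, AddCommGroup (V k)] [∀ k, Module Ω (V k)]
      [∀ k, FiniteDimensional Ω (V k)] (F : ∀ k, V k →ₗ[Ω] V k),
      (∀ k, HasEigenvalues (e (c k)) (α (c k)) (F k)) →
      -- the cohomology of `Z`
      ∀ {M : Type} [AddCommGroup M] [Module Ω M] [FiniteDimensional Ω M] (G : M →ₗ[Ω] M),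
      (∀ β : Ω, Module.End.HasEigenvalue G β → IsForeignOrSmall p F₀ e α β) →
      ∀ f : MultilinearMap Ω V M, IsTateMap F G f → f ∈ Submodule.span Ω {ψ | IsProduct c F G ψ}) ∧
    (∀ (K : Type) [Field K] [NumberField K] [IsCMField K] (α : K), InReal F₀ K →
      AtOneRealPlace p α → AtOnePlace p F₀ α) := by
  refine ⟨?_, ?_⟩
  · intro r K _ _ _ α e he hW hR hP hI Ω _ _ _ κ _ _ c V _ _ _ F hF M _ _ _ G hG f hf
    exact tate_onePlace ⟨hW, hR, hP, hI⟩ e he c F hF G hG f hf
  · intro K _ _ _ α hF hα σ l l' hl hl' x hx
    obtain ⟨y, hy, rfl⟩ := hF σ x hx
    exact hα (l.comp σ) (l'.comp σ) hl hl' y hy

end Pool.Agent.Results.MP_2a05c8_ag.KThreesGaloisRealField
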