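import Mathlib
import Pool.Agent.KS6_5.KL.Main

/-!
# The Tate conjecture for the products of an arbitrary variety with curves
`z ^ q₀ - z = a x + b / x + c` over finite fields

Let `p` be an odd prime number. This file is on the Tate conjecture, in all codimensions, for the
products of any number of the Artin-Schreier curves

  `z ^ q₀ - z = a x + b / x + c`, `a b ≠ 0`, `q₀ = p ^ e`

over finite fields of characteristic `p`, and of **one arbitrary variety `Z`**. The exponents `e`, the
coefficients `a`, `b`, `c`, the number of the curves and their multiplicities are arbitrary, and the
curves need to have an equation of this kind only over some finite extension. These are (up to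
isomorphism over extensions) all curves `z ^ q₀ - z = f(x)` for rational functions `f` of degree two
with two different poles. The genus is `q₀ - 1`.

There are **no hypotheses on Weil numbers, Frobenius fields, Galois groups or slopes** of the
curves: the only input are the numbers of points of the curves (`IsFirstCohomology`); everything
else is proved.

* `F k` is a finite field with `q ^ (s k)` elements, `q = p ^ a`. `V k` is the first cohomology group of a
  curve over the field with `q` elements which has the equation
  `z ^ (p ^ e k) - z = A k x + B k / x + C k` over the extension `F k`; the operator `Φ k` is the
  Frobenius. The hypothesis `IsFirstCohomology` says that `Φ k` is bijective and semisimple (Weil) and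
  that the traces of the powers of `Φ k` with the exponents `s k [E : F k]` are `|E| + 1` minus the
  number of points with coordinates in `E`, for all finite extensions `E` of `F k` (Lefschetz). This
  determines `Φ k ^ (s k)` up to conjugation. Such operators exist, of dimension `2 (p ^ e - 1)`:
  see `Pool.Agent.KS6_5.KL.exists_firstCohomology`.
* `M` is a cohomology group, with a Tate twist, of an **arbitrary** variety `Z` (or any other space
  with an operator `G`, not necessarily semisimple), all slopes of which are in an interval of
  length `w` (`SlopesWithin`: up to a root of a power, for the conjugates of each eigenvalue). If `Z`
  is a point this holds for `w = 0`; for an arbitrary curve `w = 1`, and for an arbitrary variety of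
  dimension `d` it holds for `w = d`. If `Z` is of Hodge level one (for example a cubic threefold) or
  a K3 surface of height at least two, then `w = 1`. Nothing else is supposed on `Z`.
* The Tate classes (over some finite extension) on the product of the curves and of `Z`, in the
  product of the first cohomology groups of the curves and of `M`, are the multilinear maps `f` from
  the product of the `V k` to `M` which commute with a power of the Frobenius (`IsTateMap`), by the
  Künneth formula and Poincaré duality. (The cohomology groups of degrees zero and two of the curves
  contribute only Tate twists.)

**Theorem.** Every Tate class is a linear combination of products of Tate classes on the products of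
two of the curves, in disjoint pairs of variables, and of a Tate class on the product of `Z` with
**at most `w ^ 2` of the curves** (`IsProductOfPairs`).

Tate proved that the Tate classes on a product of two curves are classes of divisors. So the Tate
conjecture holds, for all codimensions, for all products of these curves (`w = 0`), and for all
products of these curves and **one arbitrary smooth projective curve** `D` (`w = 1`). For an arbitrary
smooth projective variety `Z` of dimension `d` the Tate conjecture for the infinitely many
products of `Z` with any number of these curves, for all `p`, `q₀`, `a`, `b`, `c`, follows from the
products with at most `d ^ 2` of the curves. The same follows for all varieties dominated by such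
products: for instance, for the smooth affine hypersurfaces in the product of a line and a torus
`y ^ q₀ - y = a_1 x_1 + b_1 / x_1 + ⋯ + a_n x_n + b_n / x_n + c` for all `n` (the quotient of the product
of the curves `z_i ^ q₀ - z_i = a_i x_i + b_i / x_i`, `x_i ≠ 0`, by a finite group, with `y = ∑ z_i` up to a
constant), and all smooth projective varieties dominated by products of the curves.

The proof. (1) The number of points is expressed by Kloosterman sums (Hilbert 90 and characters).
(2) The `L`-function of a Kloosterman sum is a polynomial of degree two with constant term `q`,
so the eigenvalues of the Frobenius are `ω`, `q / ω` up to `p`-th roots of unity, the sum `- (ω + q / ω)`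
being the Kloosterman sum `K` (factorisation in irreducible polynomials, recursion). (3) `K` is real, and
Weil's bound gives `|ω| ^ 2 = q` for all complex absolute values. (4) `K` is congruent to `- 1` modulo
`1 - ζ`, so `ω` or `q / ω` is a unit at each place above `p`. (5) `K` is contained in the cyclotomic field
`ℚ(ζ)`, which has only one place above `p`. So the automorphisms over this field transform the
numbers `α = ω ^ 2 / q` of all Kloosterman sums into themselves or their inverses, they
are transitive on the places above `p`, and all slopes of all these numbers are `± 1`. (6) Two numbers
`α`, `α'` with the same sign characters have proportional slopes, with factor `± 1`, so they are equal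
or inverse to each other up to roots of unity (Kronecker). (7) Given a Tate class in a product of
eigenspaces, we match the inverse numbers as long as possible. If the numbers `α_1, …, α_r` remain
then the sum of their slopes, at all places, is in an interval of length `2 w` with centre zero (by
complex conjugation), and by the orthogonality of the sign characters the mean value of its square is
at least `r`. So `r ≤ w ^ 2`. (8) A multilinear map is expanded in products of eigenforms.
-/

set_option autoImplicit false

namespace Pool.Agent.Results.MP_2a05c8_ag.KloostermanCurves

open Pool.Agent.KS6_5.KL

/-- **Tate classes on the products of any number of the curves `z ^ q₀ - z = a x + b / x + c` and of an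
arbitrary variety with slopes in an interval of length `w` are generated by the Tate classes on the
products of two curves and on the products of the variety with at most `w ^ 2` curves.** -/
theorem result (p : ℕ) [Fact p.Prime] (hp : p ≠ 2) (a : ℕ) (ha : 0 < a)
    -- the curves
    {κ : Type} [Fintype κ] [DecidableEq κ] (e s : κ → ℕ) (he : ∀ k, 0 < e k) (hs : ∀ k, 0 < s k)
    (F : κ → Type) [∀ k, Field (F k)] (hF : ∀ k, Nat.card (F k) = (p ^ a) ^ s k)
    (A B C : ∀ k, F k) (hA : ∀ k, A k ≠ 0) (hB : ∀ k, B k ≠ 0)
    -- their first cohomology groups
    {Ω : Type} [Field Ω] [IsAlgClosed Ω] [CharZero Ω] (V : κ → Type) [∀ k, AddCommGroup (V k)]
    [∀ k, Module Ω (V k)] [∀ k, FiniteDimensional Ω (V k)] (Φ : ∀ k, V k →ₗ[Ω] V k)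
    (hΦ : ∀ k, IsFirstCohomology p (e k) (s k) (A k) (B k) (C k) (Φ k))
    -- the cohomology of `Z`
    {M : Type} [AddCommGroup M] [Module Ω M] [FiniteDimensional Ω M] (G : M →ₗ[Ω] M) (w : ℝ)
    (hG : ∀ β : Ω, Module.End.HasEigenvalue G β → SlopesWithin p (p ^ a) w β)
    -- a Tate class
    (f : MultilinearMap Ω V M) (hf : IsTateMap Φ G f) :
    f ∈ Submodule.span Ω {ψ | IsProductOfPairs (p ^ a) w Φ G ψ} :=
  tate_kloosterman hp ha e s he hs F hF A B C hA hB Φ hΦ G w hG f hf

end Pool.Agent.Results.MP_2a05c8_ag.KloostermanCurves
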