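import Mathlib
import Pool.Agent.KS6_5.OC.Pairs

/-!
# The Tate conjecture for the products of an arbitrary variety, for instance an arbitrary curve, with
any number of elliptic curves, and of abelian varieties whose different real fields have one place
above `p`, over finite fields

Let `q = p ^ a`. This file is on the Tate conjecture, in all codimensions, for the products of any
number of abelian varieties `A k` over the field with `q` elements (over its finite extensions) and
of **one arbitrary variety `Z`**, for instance an arbitrary curve. The abelian varieties (or their
isotypic factors) belong to the following class.

* `HasSlopes`: the roots `z` of the characteristic polynomial `P k` of the Frobenius have the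
  absolute values `√q` and the slopes `1 / 2 + δ k` and `1 / 2 - δ k` only. For `δ k = 0` these are the
  supersingular abelian varieties (nothing else is supposed), for `δ k = 1 / 2` the ordinary ones.
* `RealFieldsOnePlace`, if `δ k > 0`: some number `z ^ m + (q / z) ^ m`, `m > 0`, is contained in a Galois
  extension `F` of `ℚ` with only one place above `p`, and with cyclic Sylow `2`-subgroups of the
  Galois group; for example in a cyclic field, or in a Galois extension of odd degree, in which
  `p` is inert or totally ramified. **The field `F` may be different for different roots and for
  different `k`.**
* `Incommensurable`: for `0 < δ k ≠ δ l > 0` no power of `z ^ 2 / q` is a power of `z' ^ 2 / q`, for the roots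
  `z` of `P k` and `z'` of `P l`. (Otherwise there are exotic Tate classes.) This is no condition if all
  `A k` are ordinary or supersingular.

Examples. (1) **All elliptic curves**, with `F = ℚ`. (2) All ordinary abelian surfaces with real
multiplication by a quadratic field in which `p` does not split (for instance the ordinary
reductions of modular abelian surfaces at such `p`). (3) All ordinary abelian varieties such that
the centre of the endomorphism algebra over an algebraic closure is a quadratic extension of a
cyclic field in which `p` is inert. (4) The Jacobians of the curves
`z ^ q₀ - z = a x + b / x + c` and all products of them with the abelian varieties in (1) - (3).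

`V k` is the first cohomology group of `A k`, with the Frobenius `Φ k`, which is semisimple (Weil).
`M` is a cohomology group, with a Tate twist, of an **arbitrary** variety `Z` (or any other space
with an operator `G`, not necessarily semisimple), all slopes of which are in an interval of
length `w` (`SlopesWithin`). If `Z` is a point this holds for `w = 0`; for an arbitrary curve `w = 1`,
and for an arbitrary variety of dimension `d` it holds for `w = d`. If `Z` is a K3 surface of finite
height `h` then `w = 2 / h`. Nothing else is supposed on `Z`. The Tate classes (over some finite
extension) on the product of the `A k` and of `Z`, in the product of the groups `V k` and of `M`,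
are the multilinear maps `f` from the product of the `V k` to `M` which commute with a power of
the Frobenius (`IsTateMap`). As the cohomology of an abelian variety is the exterior algebra of
the first cohomology group, and each `A k` can occur several times, these are all Tate classes.

**Theorem.** Every Tate class is a linear combination of products of Tate classes on the products
`A k × A l`, in disjoint pairs of variables, and of a Tate class on the product of `Z` with the `A k`, for
`k` in the set `S` of the remaining variables, **where `∑ k ∈ S, (2 δ k) ^ 2 ≤ w ^ 2`, and `δ k = 0` for at
most one `k` in `S`** (`IsProductOfPairs`). (As all variables outside of `S` are in pairs, the number of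
the elements of `S` has the parity of the number of all variables.)

The Tate classes in the product of two first cohomology groups are classes of divisors (Tate). So if
all `A k` are ordinary or supersingular the Tate conjecture holds, in all codimensions, for all
products of the `A k` (`w = 0`, `S` is empty), and **for all products of the `A k` and one arbitrary
smooth projective curve `C`** (`w = 1`: `S` has at most two elements and, by the weights, an odd
number of elements, so one); in particular for all products `C × E_1 × ⋯ × E_n` of an arbitrary curve
and of arbitrary elliptic curves. If `Z` is a K3 surface of height at least three, then `S` is empty by
the same argument, and the Tate conjecture holds for all products of `Z` and of the `A k`, in all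
codimensions. For an arbitrary smooth projective variety `Z` of dimension `d` the Tate conjecture for
all products of `Z` with any number of elliptic curves follows from the products with at most
`d ^ 2 + 1` elliptic curves.

If all the real fields are contained in one Galois field with one place above `p`, relations between
Weil numbers were computed in the files `OnePlaceOfRealField` and `KloostermanCurves` of this
folder: there the automorphisms over this field act on all numbers by signs. For different
fields there is no such group, and the statement becomes false in general if the fields are not
Galois: for example let `E⁺` be the field of degree ten attached to the partitions in two triples of the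
roots of a polynomial of degree six with Galois group `S_6`, with a decomposition group of order twenty
above `p`. It has one place above `p`, and the ten functions of slopes of an ordinary Weil number in a
suitable quadratic extension are linearly dependent.

The proof. Let `x = z ^ 2 / q`. (1) The logarithms of the absolute values of the conjugates of `x` define a
function `F₁` with values `± 1` on the Galois group `G` of the algebraic numbers. If the field `F` of `x`
has one place above `p` then `G = D H₁`, where `F₁` is invariant on the left by the decomposition group
`D`, and multiplied by a sign under the right translations by the elements of the normal subgroup
`H₁` of the automorphisms over `F`. Let `F₂`, `H₂` belong to another number `y`. Then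
`B(h', h) = P(h' h) P(h') P(h) P(1)`, with `P = F₁ F₂`, is given by the commutator of `H₁` and `H₂`. It is a
bilinear form on `H₁ / (H₁ ∩ H₂)` with `B(h, h) = 1`, unless `P` changes its sign under a right
translation by a square; so it is trivial if the Sylow `2`-subgroups are cyclic. Hence `P` is
constant or changes its sign under some right translation (`dichotomy`): the functions of slopes
of `x` and `y` are proportional or orthogonal to each other. (2) If they are proportional, the
numbers are equal or inverse to each other up to roots of unity, by the third condition and
the theorem of Kronecker. (3) Given a Tate class in a product of eigenspaces we match the inverse
numbers as long as possible. The mean value of the square of the sum of the slopes of the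
remaining numbers is at least `∑ (2 δ k) ^ 2`, and at most `w ^ 2`, by the condition on `M` and by
complex conjugation. (4) A multilinear map is expanded in products of eigenforms.
-/

set_option autoImplicit false

namespace Pool.Agent.Results.MP_2a05c8_ag.OnePlaceDifferentFields

open Polynomial Pool.Agent.KS6_5.OC

/-- **Tate classes on the products of an arbitrary variety with slopes in an interval of length `w` and
of any number of abelian varieties with slopes `1 / 2 ± δ k`, whose real fields have one place above
`p`, are generated by the Tate classes on the products of two of the abelian varieties and on the
products of the variety with few of the abelian varieties.** -/
theorem result (p : ℕ) [Fact p.Prime] (a : ℕ) (ha : 0 < a)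
    -- the characteristic polynomials of the Frobenius and the slopes of the abelian varieties
    {κ : Type} [Fintype κ] [DecidableEq κ] (P : κ → ℤ[X]) (δ : κ → ℝ) (hδ : ∀ k, 0 ≤ δ k)
    (hP : ∀ k, HasSlopes p (p ^ a) (δ k) (P k))
    (hF : ∀ k, 0 < δ k → RealFieldsOnePlace p (p ^ a) (P k))
    (hI : ∀ k l, 0 < δ k → 0 < δ l → δ k ≠ δ l → Incommensurable (p ^ a) (P k) (P l))
    -- their first cohomology groups
    {Ω : Type} [Field Ω] [IsAlgClosed Ω] [CharZero Ω] (V : κ → Type) [∀ k, AddCommGroup (V k)]
    [∀ k, Module Ω (V k)] [∀ k, FiniteDimensional Ω (V k)] (Φ : ∀ k, V k →ₗ[Ω] V k)
    (hΦ : ∀ k, Submodule.span Ω {x : V k | ∃ μ : Ω, Φ k x = μ • x} = ⊤)
    (hPΦ : ∀ k, aeval (Φ k) (P k) = 0)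
    -- the cohomology of `Z`
    {M : Type} [AddCommGroup M] [Module Ω M] [FiniteDimensional Ω M] (G : M →ₗ[Ω] M) (w : ℝ)
    (hG : ∀ β : Ω, Module.End.HasEigenvalue G β → SlopesWithin p (p ^ a) w β)
    -- a Tate class
    (f : MultilinearMap Ω V M) (hf : IsTateMap Φ G f) :
    f ∈ Submodule.span Ω {ψ | IsProductOfPairs (p ^ a) w δ Φ G ψ} :=
  tate_onePlace ha P δ hδ hP hF hI Φ hΦ hPΦ G w hG f hf

end Pool.Agent.Results.MP_2a05c8_ag.OnePlaceDifferentFields
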