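import Mathlib
import Pool.Agent.KS6_5.SP.Place
import Pool.Agent.KS6_5.SP.Split

/-!
# The Tate conjecture for products of smooth varieties with abelian varieties whose Frobenius numbers
are supported at one place of a field containing the real multiplications

Let `k₀` be a finitely generated field and `A` an abelian variety over `k₀`, of any dimension. Let `γ`
be a Frobenius element of the Galois group `Γ` of `k₀` at **one** place of good reduction, the residue
field having `q = p ^ a` elements, for which the characteristic polynomial on the Tate module
`V = V_ℓ (A)` is the product of the minimal polynomials of Weil numbers `π i` in CM fields `E i` (`i`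
in a finite set), all powers of `π i` generating `E i`. Let `F` be a number field which contains all
conjugates of the maximal totally real subfields of the `E i` (for example the composite of their
Galois closures). We put `α i = π i ^ 2 / q` (`angle`) and suppose

* `AtOnePlace`: each conjugate `σ (α i)` is a unit at all places above `p` except for those above
  **one** place of `F` (which may depend on `σ` and `i`). This is true for all numbers if `F` has
  only one place above `p`, for example if `p` is inert or totally ramified in `F` (second part of
  the theorem); it is also true, for all `p`, if `α i` is a unit except at the two places above
  one place of degree one of the real field (Weil numbers of K3 type, and the almost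
  ordinary abelian varieties of Lenstra and Zarhin);
* `Incommensurable`: no power of a conjugate of `α i` is equal to a power of a conjugate of `α j`,
  for `i ≠ j`. (Equal powers with the same exponent `m` mean that the abelian varieties given by
  `π i` and `π j` are isogenous over an extension, and then one omits one of them; an equality with
  different exponents gives exotic Tate classes. If the largest slopes of `π i` and `π j` are equal,
  for example in the ordinary case, the exponents are equal.)

Let `U` be an **arbitrary smooth variety** over `k₀`, proper or not, and `M` a subquotient of
`H^b(U, ℚ_ℓ(i))` (or any other representation of `Γ`) such that the eigenvalues of `γ` on `M` are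
roots of a polynomial `f ≠ 0` with rational coefficients (for example if `U` has a good model at the
place). We suppose that for all roots `β` of `f` and all `i`

* `NotOver`: for some `m > 0` the field `F(β ^ m)` contains no conjugate of `E i`, **or**
* `SmallerSlopes`: there is a number `c` with `|s - c| < |s' - 1 / 2|` for all slopes `s` of the
  conjugates of `β` and all slopes `s' ≠ 1 / 2` of `π i`.

Then (`ClassesSplit`) **the classes in `H^j(A ^ r) ⊗ M` which are fixed by an open subgroup of `Γ` are
zero for odd `j`, and linear combinations of products of `m` Tate classes of degree two on `A ^ r`
(that is, of divisor classes, by Tate, Zarhin and Faltings) and of Tate classes in `M(-m)` for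
`j = 2 m`**, for all `r`. The classes in `H^j(A ^ r) ⊗ M` are the alternating maps of `j` variables
from `V ^ r` to `M`. So for all these `A` and `U` the Tate conjecture for `A ^ r × U`, for all `r`, in all
codimensions, over all finite extensions, follows from the Tate conjecture for `U`; with `U` a point
it holds for `A ^ r` (and for all abelian varieties isogenous to a product of powers of the simple
factors of `A`). The hypotheses on `V` (`IsPolarised`) are the Weil pairing and the semisimplicity
(Tate, Zarhin, Faltings).

Examples. (1) For the Artin-Schreier curves `y ^ p - y = f(x)` whose `L`-functions are of degree two
for each additive character the Frobenius numbers generate quadratic extensions of subfields of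
`ℚ(ζ_p)`, in which `p` is totally ramified. For the products of all the curves with
`f(x) = a x + b / x + c` we verify everything, in the file `KloostermanCurves` of this folder.
(2) Abelian varieties over finite fields with multiplication by a totally real
Galois field `F` of degree `dim A` in which `p` is inert or totally ramified, for example the
reductions at such `p` of the modular abelian varieties of weight two with trivial character whose
field of coefficients `F` is Galois over `ℚ`, and the products of their nonisogenous simple factors.

It does not suffice that the real subfields of the `E i` have only one place above `p`: let
`E = E⁺(√-d)` with a quartic field `E⁺` of Galois group `A₄` such that the decomposition groups at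
`p` are isomorphic to the Klein group and act nontrivially on `√-d`. Then `E⁺` has one place above `p`
and `E` has two, and there are ordinary Weil numbers `π` all of whose powers generate `E`; but the norm
of `α` to `ℚ(√-d)` is a root of unity, which gives exotic classes.

Relation to the starting files. `SeparatedSigns`, `AllCMTypes`, `SmallSlopeDeviation`,
`ProductsOfKThrees`, `AbelianTimesKThree` (this folder) need fields with distinct sign characters,
CM types which are nondegenerate, absolutely irreducible and mutually unrelated fields, numbers with
a single pair of slopes `≠ 1 / 2`, or flips. Here the fields `E i` may be reducible and they may be
equal to each other, with the same Galois closure, and there is no condition on the multiplicities of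
the slopes; what is required is that `p` is nonsplit in `F`, or at least the place where the number is
not a unit.

The proof. Let `S` be the group of the automorphisms which fix all elements of `F`. It acts on the
conjugates of `E i` through signs: `h σ = σ` or `h σ` is the complex conjugate of `σ`. Given a relation
between the conjugates of the `α i` we fix one of them, `x = σ (α i)`, and a place where it is not a
unit, and take the average of the logarithms of the relation at this place and its images under `S`,
with the sign character of `x`. Only the conjugates `y = τ (α j)` with the same sign character
remain. If `y` is not a unit at the given place either, then both `x` and `y` are units except above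
the same place of `F`; as `S` permutes the places above it transitively and acts through the same
signs, `log |y|` is proportional to `log |x|` at all places. The factor is rational, so a
power of `y` is a power of `x` or of its conjugate; this is excluded for `j ≠ i`, and for `j = i` the
factor is `± 1` and `τ` is `σ` or its conjugate, because the powers generate `E i`. So only the
difference of the exponents of `x` and its conjugate remains. It vanishes because the contribution
of `β` is averaged out (`NotOver`) or is too small (`SmallerSlopes`). The classes are then computed
by the semisimplicity as in the starting files (H204R3, Y137).
-/

set_option autoImplicit false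

namespace Pool.Agent.Results.MP_2a05c8_ag.OnePlaceOfRealField

open NumberField Pool.Agent.Y137.MV Pool.Agent.Y137.SL Pool.Agent.KS6_5.SP

/-- The Tate classes on `A ^ r × U` come from `A ^ r` in degree two and from `U`, whenever the
characteristic polynomial of `γ` on `V` is the product of the minimal polynomials of the `π i` and
for each eigenvalue `β` of `γ` on `M` and each `i`, some field `F(β ^ m)`, `m > 0`, contains no
conjugate of `E i` or the slopes of `β` deviate less from some number than the slopes of `π i`
different from `1 / 2` deviate from `1 / 2`. -/
def SplitsFor (p : ℕ) [Fact p.Prime] (a : ℕ) (F : IntermediateField ℚ (AlgebraicClosure ℚ))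
    {I : Type} [Fintype I] (E : I → Type) [∀ i, Field (E i)] [∀ i, NumberField (E i)]
    [∀ i, IsCMField (E i)] (π : ∀ i, E i) : Prop :=
  ∀ (k : Type) [Field k] [CharZero k] (V : Type) [AddCommGroup V] [Module k V]
    [FiniteDimensional k V] (M : Type) [AddCommGroup M] [Module k M] [FiniteDimensional k M]
    (Γ : Type) [Group Γ] (ρ : Representation k Γ V) (τ : Representation k Γ M) (χ : Γ →* k)
    (γ : Γ), IsPolarised ρ χ γ p a π →
    ∀ f : Polynomial ℚ, f ≠ 0 → Polynomial.aeval (τ γ) (f.map (algebraMap ℚ k)) = 0 →
    (∀ β : AlgebraicClosure ℚ, Polynomial.aeval β f = 0 → ∀ i,
      NotOver F (E i) β ∨ SmallerSlopes p (angle p a (π i)) 2 1 β) →
    ClassesSplit ρ χ τ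

/-- **The Tate conjecture for `A ^ r × U` follows from the Tate conjecture for `U`, for the abelian
varieties `A` with one Frobenius element whose numbers are supported at one place of a field `F`
containing all the real multiplications, and the smooth varieties `U` with smaller slopes, or
whose eigenvalues do not generate the fields over `F`.** -/
theorem result :
    (∀ (p : ℕ) [Fact p.Prime] (a : ℕ) (F : IntermediateField ℚ (AlgebraicClosure ℚ))
      [FiniteDimensional ℚ F] (I : Type) [Fintype I] (E : I → Type)
      [∀ i, Field (E i)] [∀ i, NumberField (E i)] [∀ i, IsCMField (E i)] (π : ∀ i, E i),
      (∀ i, IsWeilOne p a (π i)) → (∀ i, ContainsReal F (E i)) →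
      (∀ i, AtOnePlace p F (angle p a (π i))) → Incommensurable (fun i => angle p a (π i)) →
      SplitsFor p a F E π) ∧
    (∀ (p : ℕ) [Fact p.Prime] (F : IntermediateField ℚ (AlgebraicClosure ℚ))
      [FiniteDimensional ℚ F], (∃! P : Ideal (𝓞 F), P.IsPrime ∧ (p : 𝓞 F) ∈ P) →
      ∀ (E : Type) [Field E] (α : E), AtOnePlace p F α) := by
  refine ⟨?_, ?_⟩
  · intro p _ a F _ I _ E _ _ _ π hW hR hP hI k _ _ V _ _ _ M _ _ _ Γ _ ρ τ χ γ hp f hf0 hfγ hf
    exact split_of_onePlace ⟨hW, hR, hP, hI⟩ ρ τ χ γ hp f hf0 hfγ hf
  · intro p _ F _ h E _ α
    exact atOnePlace_of_unique F h α

end Pool.Agent.Results.MP_2a05c8_ag.OnePlaceOfRealField
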